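import Pool.Agent.H59.L.S8.W418.LCI.Step
import Pool.Agent.H59.L.S8.W418.Lin.Stage
import Pool.Agent.H59.L.S8.W558.S2.CI3
import Pool.Agent.H59.L.S8.W558.S2.Loc
import Pool.Agent.H59.L.S8.W63.R558.Finr
import Pool.Agent.H59.L.S8.W417.Tor.Base
import Pool.Agent.H59.L.S8.W973.CUT2

set_option autoImplicit false
set_option linter.unusedVariables false
set_option linter.unusedSimpArgs false
set_option linter.unusedSectionVars false

universe u

open MvPolynomial

namespace Pool.Agent.W418.LCI

open Pool.Agent.W558 Pool.Agent.W418.Lin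

namespace LData

variable {k E : Type u} [Field k] [Field E] [Algebra k E] {p : ℕ} {N n r : ℕ}
  {S : LData E p N n r} [Fact p.Prime] [CharP k p]

/-- The base step. -/
theorem inv_zero [PerfectField k] (hS : S.Ok)
    {T I : Type} [Finite T] [Fintype I] (M : LM (⊥ : Subalgebra k E) ⊤ T I)
    (Γ : S.H → I → ℤ) (hF : Fn M S.h Γ)
    (hfr : ∀ t (x : E), ∃ a ∈ M.A t, ∃ b ∈ M.A t, b ≠ 0 ∧ x = a * b⁻¹)
    (hp : ∀ s, pl S.v s ≠ 0 → ∃ b, S.h b = pl S.v s) (hr : ∃ s, pl S.v s ≠ 0) :
    Inv k S 0 := by
  classical
  intro L _ _ ψ hL hker hDn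
  have hψ : ∀ a, ψ a = 0 → a = 0 := by
    intro a ha
    have h1 : Ideal.span (S.f '' {l | l.val < 0 ∧ l ∈ S.J}) = ⊥ := by
      have h2 : {l : Fin r | l.val < 0 ∧ l ∈ S.J} = ∅ := by
        ext l
        simp
      rw [h2, Set.image_empty, Ideal.span_empty]
    rw [h1] at hker
    have h3 := hker.2 (y := ⊥) ⟨Ideal.isPrime_bot, le_rfl⟩ bot_le
    exact (Ideal.mem_bot).1 (h3 (RingHom.mem_ker.2 ha))
  let aE : Algebra E L := (ψ.toRingHom.comp (C : E →+* MvPolynomial (Fin N) E)).toAlgebra
  have hE : ∀ b : E, algebraMap E L b = ψ (C b) := fun b => rfl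
  have tE : IsScalarTower k E L := by
    refine IsScalarTower.of_algebraMap_eq fun c => ?_
    rw [hE]
    have : (C (algebraMap k E c) : MvPolynomial (Fin N) E) =
      algebraMap k (MvPolynomial (Fin N) E) c := rfl
    rw [this, AlgHom.commutes]
  let x : Fin N → L := fun i => ψ (X i)
  have hae : ∀ P, aeval x P = ψ P := by
    intro P
    induction P using MvPolynomial.induction_on with
    | C b => rw [aeval_C]; rfl
    | add a b ha hb => rw [map_add, map_add, ha, hb]
    | mul_X a s ha => rw [map_mul, map_mul, ha, aeval_X]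
  have hx : AlgebraicIndependent E x := by
    rw [algebraicIndependent_iff]
    intro P hP
    apply hψ
    rw [← hae, hP]
  have hx' : AlgebraicIndependent E (Sum.elim x (Empty.elim : Empty → L)) := by
    have h1 := hx.comp (Sum.elim id Empty.elim : Fin N ⊕ Empty → Fin N) (by
      rintro (a | a) (b | b) h
      · exact congrArg Sum.inl h
      · exact b.elim
      · exact a.elim
      · exact a.elim)
    convert h1 using 1
    funext a
    rcases a with a | a
    · rfl
    · exact a.elim
  have hlf : ∀ q, lf S.v x q = ψ (S.lin q) := by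
    intro q
    unfold lf lin
    rw [map_sum]
    refine Finset.sum_congr rfl fun i _ => ?_
    rw [map_mul, hE]
  have h1 := lin_stage_DI (L := L) Pool.Agent.W417.Tor.main princ3_main M S.h Γ hF hfr S.v hp hr
    hS.hv0 x (Empty.elim : Empty → L) hx'
  refine ⟨?_, fun b _ a ha => by rw [hψ a ha, map_zero, map_zero]⟩
  have h2 := Pool.Agent.W63.R558Finr.mono k L (S.H ⊕ (S.Λ ⊕ Empty)) (S.H ⊕ (S.Λ ⊕ Fin r)) _ _
    (QS ψ (Dn S 0)) _ (DsL S ψ 0)
    h1 (fun x y => Sum.elim (fun t => if y = Sum.inl t then (1 : ℤ) else 0)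
      (Sum.elim (fun s => if y = Sum.inr (Sum.inl s) then 1 else 0) (fun _ => 0)) x) ?_ ?_
  · convert h2 using 1
    funext x
    rcases x with t | s | l
    · rw [Finset.prod_eq_single (Sum.inl t)]
      · simp only [Sum.elim_inl, if_true, zpow_one]
        exact (hE _).symm
      · intro y _ hy
        simp only [Sum.elim_inl, if_neg hy, zpow_zero]
      · intro h; exact absurd (Finset.mem_univ _) h
    · rw [Finset.prod_eq_single (Sum.inr (Sum.inl s))]
      · simp only [Sum.elim_inr, Sum.elim_inl, if_true, zpow_one]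
        exact (hlf s).symm
      · intro y _ hy
        simp only [Sum.elim_inr, Sum.elim_inl, if_neg hy, zpow_zero]
      · intro h; exact absurd (Finset.mem_univ _) h
    · simp only [Sum.elim_inr, zpow_zero, Finset.prod_const_one]
      have h3 : ¬ (l.val < 0 ∧ l ∉ S.J) := fun h => absurd h.1 (Nat.not_lt_zero _)
      change (if l.val < 0 ∧ l ∉ S.J then ψ (S.f l) else 1) = 1
      rw [if_neg h3]
  · -- the algebras
    apply le_antisymm
    · refine lauI_le ?_ ?_ ?_
      · intro e
        rw [hE]
        exact map_mem_QS _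
      · rintro (q | q)
        · rw [Sum.elim_inl, hlf]
          exact map_mem_QS _
        · exact q.elim
      · rintro (q | q)
        · rw [Sum.elim_inl, hlf]
          exact inv_mem_QS (Submonoid.subset_closure (Or.inl (Or.inr ⟨q, rfl⟩)))
            (hDn _ (Submonoid.subset_closure (Or.inl (Or.inr ⟨q, rfl⟩))))
        · exact q.elim
    · have hlm : ∀ q, lf S.v x q ∈
          LauI k E (Sum.elim (lf S.v x) (Empty.elim : Empty → L)) := fun q =>
        z_mem (k := k) (E := E) (Sum.elim (lf S.v x) (Empty.elim : Empty → L)) (Sum.inl q)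
      have hXm : ∀ i, x i ∈ LauI k E (Sum.elim (lf S.v x) (Empty.elim : Empty → L)) := by
        intro i
        obtain ⟨s, hs⟩ := hr
        -- Cramer's rule for the inverse matrix
        let A : Matrix (Fin N) (Fin N) E := fun i => S.v (s i)
        have hA : A.det ≠ 0 := hs
        have hu : IsUnit A.det := isUnit_iff_ne_zero.2 hA
        have h3 : x i = ∑ l, algebraMap E L (A⁻¹ i l) * lf S.v x (s l) := by
          have h4 : ∀ l, lf S.v x (s l) = ∑ i', algebraMap E L (A l i') * x i' := fun l => rfl
          simp only [h4, Finset.mul_sum]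
          rw [Finset.sum_comm]
          have h5 : ∀ i', ∑ l, algebraMap E L (A⁻¹ i l) * (algebraMap E L (A l i') * x i') =
              algebraMap E L ((A⁻¹ * A) i i') * x i' := by
            intro i'
            rw [Matrix.mul_apply, map_sum, Finset.sum_mul]
            refine Finset.sum_congr rfl fun l _ => ?_
            rw [map_mul]; ring
          rw [Finset.sum_congr rfl fun i' _ => h5 i', Matrix.nonsing_inv_mul A hu,
            Finset.sum_eq_single i]
          · rw [Matrix.one_apply_eq, map_one, one_mul]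
          · intro i' _ hi'
            rw [Matrix.one_apply_ne hi'.symm, map_zero, zero_mul]
          · intro h; exact absurd (Finset.mem_univ _) h
        rw [h3]
        exact Subalgebra.sum_mem _ fun l _ => Subalgebra.mul_mem _ (em_mem _ _) (hlm _)
      have hmem : ∀ a, ψ a ∈ LauI k E (Sum.elim (lf S.v x) (Empty.elim : Empty → L)) :=
        mv_mem ψ _ (fun b => by rw [← hE]; exact em_mem _ _) hXm
      have hinv : ∀ s ∈ Dn S 0, (ψ s)⁻¹ ∈
          LauI k E (Sum.elim (lf S.v x) (Empty.elim : Empty → L)) := by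
        intro s hs
        refine Submonoid.closure_induction (motive := fun s _ => (ψ s)⁻¹ ∈
          LauI k E (Sum.elim (lf S.v x) (Empty.elim : Empty → L))) ?_ ?_ ?_ hs
        · rintro x' ((⟨b, hb, rfl⟩ | ⟨s, rfl⟩) | ⟨l, hl, -⟩)
          · rw [← hE, ← map_inv₀]
            exact em_mem _ _
          · rw [← hlf]
            exact zi_mem (k := k) (E := E)
              (Sum.elim (lf S.v x) (Empty.elim : Empty → L)) (Sum.inl s)
          · exact absurd hl (Nat.not_lt_zero _)
        · rw [map_one, inv_one]; exact Subalgebra.one_mem _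
        · intro x y _ _ hx hy
          rw [map_mul, mul_inv]
          exact Subalgebra.mul_mem _ hx hy
      rintro x' ⟨a, s, hs, h0, h3⟩
      have h4 : x' = ψ a * (ψ s)⁻¹ := by rw [← h3, mul_inv_cancel_right₀ h0]
      rw [h4]
      exact Subalgebra.mul_mem _ (hmem a) (hinv s hs)
  · rintro D ⟨b, hb, hD⟩
    refine ⟨?_, ?_⟩
    · intro e
      rw [hE, hD, dl_C, map_zero]
    · rintro (q | q)
      · refine ⟨ZMod.castHom (dvd_refl p) k (b (S.bl q)), ?_⟩
        rw [Sum.elim_inl, hlf, hD, dl_lin hS.hvb, map_smul]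
      · exact q.elim

/-- The induction. -/
theorem inv_all [PerfectField k] (hS : S.Ok) (h0 : Inv k S 0) : ∀ j : ℕ, j ≤ r → Inv k S j := by
  have key : ∀ j' : Fin r, Inv k S j'.val → Inv k S (j'.val + 1) := by
    intro j' h1
    by_cases h2 : j' ∈ S.J
    · exact inv_cut (k := k) (S := S) hS Pool.Agent.W63.R558Finr.mono
        (Pool.Agent.W973.CUT2.main loc_main princ3_main) h2 h1
    · exact inv_kept (k := k) (S := S) hS Pool.Agent.W63.R558Finr.mono h2 h1
  intro j
  induction j with
  | zero => exact fun _ => h0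
  | succ j ih =>
    intro hj
    exact key ⟨j, by omega⟩ (ih (by omega))

end LData

end Pool.Agent.W418.LCI
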